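import Pool.Agent.Helper80.J.HomDefs
import Pool.Agent.Helper53.Slit.IsE
/-! First part of module MIX of the T-junction project (helper40): independence of `1, x` over the polynomials in `c`, the
confluent sets. -/
namespace IP.Junc
open IP IP.Slit Finset Polynomial

/-- `1, x` are independent over `ℂ[c]` -/
theorem mx_indep {A B : ℂ[X]} (h : ∀ x : ℂ, A.eval (cc x) + B.eval (cc x) * x = 0) : A = 0 ∧ B = 0 := by
  have hc : (X ^ 3 - C 3 * X : ℂ[X]).natDegree = 3 := chiA_c_natDegree
  have hp : A.comp (X ^ 3 - C 3 * X) + B.comp (X ^ 3 - C 3 * X) * X = 0 := by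
    apply Polynomial.funext
    intro x
    have h1 := h x
    unfold cc at h1
    simp only [eval_add, eval_mul, eval_comp, eval_sub, eval_pow, eval_X, eval_C, eval_zero]
    exact h1
  have hB : B = 0 := by
    by_contra hB
    have h1 : A.comp (X ^ 3 - C 3 * X) = -(B.comp (X ^ 3 - C 3 * X) * X) := by linear_combination hp
    have h2 := congrArg natDegree h1
    have h3 : B.comp (X ^ 3 - C 3 * X) ≠ 0 := by
      intro h0
      rw [comp_eq_zero_iff] at h0
      rcases h0 with h0 | ⟨_, h0⟩
      · exact hB h0
      · rw [h0, natDegree_C] at hc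
        omega
    rw [natDegree_neg, natDegree_mul h3 X_ne_zero, natDegree_comp, natDegree_comp, hc, natDegree_X] at h2
    omega
  refine ⟨?_, hB⟩
  rw [hB, zero_comp, zero_mul, add_zero, comp_eq_zero_iff] at hp
  rcases hp with h0 | ⟨_, h0⟩
  · exact h0
  · rw [h0, natDegree_C] at hc
    omega

theorem mx_perm_aux {l1 l2 : List ℂ} (h : l1.Perm l2) : ∀ p : List ℂ,
    Chi (p ++ l1).length (fun i => (p ++ l1).getD i 0) = Chi (p ++ l2).length (fun i => (p ++ l2).getD i 0) := by
  induction h with
  | nil => intro p; rfl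
  | cons x _ ih =>
    intro p
    have := ih (p ++ [x])
    simpa only [List.append_assoc, List.cons_append, List.nil_append] using this
  | swap x y l =>
    intro p
    have hlen : (p ++ y :: x :: l).length = (p ++ x :: y :: l).length := by simp
    rw [hlen, ← Chi_swap (i := p.length) (by simp) (fun i => (p ++ x :: y :: l).getD i 0)]
    refine Chi_congr fun j _ => ?_
    rcases Nat.lt_or_ge j p.length with h1 | h1
    · rw [Equiv.swap_apply_of_ne_of_ne (by omega) (by omega), List.getD_append _ _ _ _ h1,
        List.getD_append _ _ _ _ h1]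
    · obtain ⟨k, rfl⟩ := Nat.exists_eq_add_of_le h1
      match k with
      | 0 =>
        rw [Nat.add_zero, Equiv.swap_apply_left, List.getD_append_right _ _ _ _ (le_refl _),
          List.getD_append_right _ _ _ _ (by omega)]
        simp
      | 1 =>
        rw [Equiv.swap_apply_right, List.getD_append_right _ _ _ _ (by omega),
          List.getD_append_right _ _ _ _ (by omega)]
        simp
      | k + 2 =>
        rw [Equiv.swap_apply_of_ne_of_ne (by omega) (by omega), List.getD_append_right _ _ _ _ (by omega),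
          List.getD_append_right _ _ _ _ (by omega)]
        rw [show p.length + (k + 2) - p.length = k + 2 by omega]
        rfl
  | trans _ _ ih1 ih2 =>
    intro p
    rw [ih1 p, ih2 p]

theorem mx_list (n : ℕ) (f : ℕ → ℂ) :
    Chi ((List.range n).map f).length (fun i => ((List.range n).map f).getD i 0) = Chi n f := by
  rw [List.length_map, List.length_range]
  refine Chi_congr fun i hi => ?_
  rw [List.getD_eq_getElem _ _ (by simpa using hi)]
  simp

/-- `Chi` depends only on the multiset -/
theorem mx_Chi {r : ℕ} {s t : ℕ → ℂ} (h : (Multiset.range r).map s = (Multiset.range r).map t) :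
    Chi r s = Chi r t := by
  have h1 : ((List.range r).map s).Perm ((List.range r).map t) := by
    rw [← Multiset.coe_eq_coe]
    exact h
  have h2 := mx_perm_aux h1 []
  simp only [List.nil_append] at h2
  rw [← mx_list r s, ← mx_list r t]
  exact h2

theorem mx_update (r : ℕ) (s : ℕ → ℂ) (y : ℂ) :
    (Multiset.range (r + 1)).map (Function.update s r y) = y ::ₘ (Multiset.range r).map s := by
  rw [Multiset.range_succ, Multiset.map_cons, Function.update_self]
  congr 1
  refine Multiset.map_congr rfl fun i hi => ?_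
  rw [Multiset.mem_range] at hi
  rw [Function.update_of_ne (by omega)]

theorem mx_prod (r : ℕ) (s : ℕ → ℂ) (y : ℂ) :
    ∏ i ∈ range r, (y - s i) = (((Multiset.range r).map s).map fun x => y - x).prod := by
  rw [Multiset.map_map]
  rfl

/-- `AP`, `BP` depend only on the multiset -/
theorem mx_AB {r : ℕ} {s t : ℕ → ℂ} (h : (Multiset.range r).map s = (Multiset.range r).map t) :
    AP r s = AP r t ∧ BP r s = BP r t := by
  have h1 : AP r s - AP r t = 0 ∧ BP r s - BP r t = 0 := by
    apply mx_indep
    intro y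
    have e1 := AB_eval r s y
    have e2 := AB_eval r t y
    have e3 : Chi (r + 1) (Function.update s r y) = Chi (r + 1) (Function.update t r y) := by
      apply mx_Chi
      rw [mx_update, mx_update, h]
    have e4 : ∏ i ∈ range r, (y - s i) = ∏ i ∈ range r, (y - t i) := by
      rw [mx_prod, mx_prod, h]
    rw [e3, e4, e2] at e1
    unfold cc
    rw [eval_sub, eval_sub]
    linear_combination -e1
  exact ⟨sub_eq_zero.1 h1.1, sub_eq_zero.1 h1.2⟩

/-- two more strands `a`, `b` in wheel position with third root `-z` -/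
def mx_two (a b : ℂ) (s : ℕ → ℂ) : ℕ → ℂ := fun i => if i = 0 then a else if i = 1 then b else s (i - 2)

theorem mx_two_map (a b : ℂ) (s : ℕ → ℂ) (r : ℕ) :
    (Multiset.range (r + 2)).map (mx_two a b s) = a ::ₘ b ::ₘ (Multiset.range r).map s := by
  induction r with
  | zero =>
    rw [Multiset.range_succ, Multiset.range_succ, Multiset.map_cons, Multiset.map_cons, Multiset.cons_swap]
    simp [mx_two]
  | succ r ih =>
    rw [show r + 1 + 2 = r + 2 + 1 by ring, Multiset.range_succ, Multiset.map_cons, ih, Multiset.range_succ r,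
      Multiset.map_cons]
    have h1 : mx_two a b s (r + 2) = s r := by
      unfold mx_two
      rw [if_neg (by omega), if_neg (by omega), show r + 2 - 2 = r by omega]
    rw [h1, Multiset.cons_swap, Multiset.cons_swap (s r)]

theorem mx_two_Chi {a b : ℂ} (h : qq a b = 0) (s : ℕ → ℂ) (r : ℕ) :
    Chi (r + 2) (mx_two a b s) = (∏ i ∈ range r, (s i + a + b)) * Chi r s := by
  have h1 := wh_Chi r (mx_two a b s) h
  have h2 : ∀ i, mx_two a b s (i + 2) = s i := fun i => by
    unfold mx_two
    rw [if_neg (by omega), if_neg (by omega), show i + 2 - 2 = i by omega]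
  simp only [h2] at h1
  exact h1

theorem mx_two_AB {a b : ℂ} (h : qq a b = 0) {w : ℂ} (hw : ∀ y : ℂ, (y + a + b) * ((y - a) * (y - b)) = cc y - w)
    (s : ℕ → ℂ) (r : ℕ) :
    AP (r + 2) (mx_two a b s) = C (∏ i ∈ range r, (s i + a + b)) * (X - C w) * AP r s ∧
      BP (r + 2) (mx_two a b s) = C (∏ i ∈ range r, (s i + a + b)) * (X - C w) * BP r s := by
  have h1 : AP (r + 2) (mx_two a b s) - C (∏ i ∈ range r, (s i + a + b)) * (X - C w) * AP r s = 0 ∧
      BP (r + 2) (mx_two a b s) - C (∏ i ∈ range r, (s i + a + b)) * (X - C w) * BP r s = 0 := by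
    apply mx_indep
    intro y
    have e1 := AB_eval (r + 2) (mx_two a b s) y
    have e2 := AB_eval r s y
    have e3 : Chi (r + 2 + 1) (Function.update (mx_two a b s) (r + 2) y) =
        (∏ i ∈ range r, (s i + a + b)) * (y + a + b) * Chi (r + 1) (Function.update s r y) := by
      have e4 := mx_two_Chi h (Function.update s r y) (r + 1)
      rw [prod_range_succ, Function.update_self] at e4
      have e5 : ∏ i ∈ range r, (Function.update s r y i + a + b) = ∏ i ∈ range r, (s i + a + b) := by
        refine prod_congr rfl fun i hi => ?_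
        rw [mem_range] at hi
        rw [Function.update_of_ne (by omega)]
      rw [e5] at e4
      rw [← e4]
      apply mx_Chi
      rw [mx_update, show r + 2 + 1 = r + 1 + 2 by ring, mx_two_map, mx_two_map, mx_update, Multiset.cons_swap y,
        Multiset.cons_swap y]
    have e6 : ∏ i ∈ range (r + 2), (y - mx_two a b s i) = (y - a) * (y - b) * ∏ i ∈ range r, (y - s i) := by
      rw [mx_prod, mx_two_map, Multiset.map_cons, Multiset.map_cons, Multiset.prod_cons, Multiset.prod_cons, mx_prod]
      ring
    rw [e3, e6] at e1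
    have e7 := hw y
    unfold cc at e7 ⊢
    rw [eval_sub, eval_sub, eval_mul, eval_mul, eval_mul, eval_mul, eval_C, eval_sub, eval_X, eval_C]
    linear_combination -e1 + (∏ i ∈ range r, (s i + a + b)) * (y ^ 3 - 3 * y - w) * e2 +
      (∏ i ∈ range r, (s i + a + b)) * Chi (r + 1) (Function.update s r y) * (∏ i ∈ range r, (y - s i)) * e7
  exact ⟨sub_eq_zero.1 h1.1, sub_eq_zero.1 h1.2⟩

theorem mx_qq1 : qq (1 : ℂ) 1 = 0 := by
  unfold qq
  norm_num
theorem mx_qq1' : qq (-1 : ℂ) (-1) = 0 := by
  unfold qq
  norm_num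

theorem mx_map_eq {r : ℕ} {s t : ℕ → ℂ} (h : ∀ i < r, s i = t i) : (Multiset.range r).map s = (Multiset.range r).map t :=
  Multiset.map_congr rfl fun i hi => h i (Multiset.mem_range.1 hi)

theorem mx_AB_A (m : ℕ) {s : ℕ → ℂ} (hs : ∀ i < 2 * m + 1, s i = 2) :
    AP (2 * m + 1) s = C (Chi (2 * m + 1) s) * FP m ∧ BP (2 * m + 1) s = C (Chi (2 * m + 1) s) * FQ m := by
  have h1 : (Multiset.range (2 * m + 1)).map s = (Multiset.range (2 * m + 1)).map fun _ => (2 : ℂ) := mx_map_eq hs
  rw [mx_Chi h1, (mx_AB h1).1, (mx_AB h1).2]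
  exact F_unique m (isE (2 * m + 1) (by omega))

theorem mx_coeff_comp (p : ℂ[X]) (n : ℕ) : (p.comp (-X)).coeff n = (-1) ^ n * p.coeff n := by
  induction p using Polynomial.induction_on' with
  | add p q hp hq => rw [add_comp, coeff_add, hp, hq, coeff_add]; ring
  | monomial k a =>
    rw [monomial_comp, neg_pow, coeff_C_mul, ← C_1, ← C_neg, ← C_pow, coeff_C_mul, coeff_X_pow, coeff_monomial]
    by_cases h : n = k
    · subst h
      simp
      ring
    · rw [if_neg h, if_neg (Ne.symm h)]
      ring

/-- the mirror image of `isE` -/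
theorem mx_AB_neg (q : ℕ) {s : ℕ → ℂ} (hs : ∀ i < 2 * q + 1, s i = -2) :
    AP (2 * q + 1) s = C (Chi (2 * q + 1) s) * FPt q ∧ BP (2 * q + 1) s = C (Chi (2 * q + 1) s) * FQt q := by
  have hIs : IsE (2 * q + 1) (-(-1) ^ q * Chi (2 * q + 1) s) ((AP (2 * q + 1) s).comp (-X)) (-(BP (2 * q + 1) s).comp (-X)) := by
    refine ⟨?_, ?_, ?_, ?_⟩
    · rw [natDegree_comp, natDegree_neg, natDegree_X, mul_one]
      exact ise_deg _ _ _
    · rw [natDegree_neg, natDegree_comp, natDegree_neg, natDegree_X, mul_one]
      exact ise_deg _ _ _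
    · rw [coeff_neg, mx_coeff_comp, show (2 * q + 1) / 2 = q by omega]
      have h1 : (BP (2 * q + 1) s).coeff q = Chi (2 * q + 1) s := by
        unfold BP
        rw [finsetSum_coeff, sum_eq_single (2 * q + 1)]
        · rw [coeff_C_mul, coeff_X_pow, if_pos (by omega), mul_one, ka_top]
        · intro j hj hjr
          rw [mem_filter, mem_range] at hj
          rw [coeff_C_mul, coeff_X_pow, if_neg (by omega), mul_zero]
        · intro hr
          have h2 : 2 * q + 1 ∈ (range (2 * q + 1 + 1)).filter (fun j => j % 2 = 1) := by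
            rw [mem_filter, mem_range]
            exact ⟨by omega, by omega⟩
          exact absurd h2 hr
      rw [h1]
      ring
    · obtain ⟨P, _, _, hP⟩ := Chi_lead (2 * q + 1) s
      refine ⟨-P.comp (-X), ?_⟩
      apply Polynomial.funext
      intro y
      have h1 := AB_eval (2 * q + 1) s (-y)
      rw [hP] at h1
      have h2 : ∏ i ∈ range (2 * q + 1), (-y - s i) = (-y + 2) ^ (2 * q + 1) := by
        rw [← card_range (2 * q + 1), ← prod_const, card_range]
        refine prod_congr rfl fun i hi => ?_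
        rw [hs i (mem_range.1 hi)]
        ring
      rw [h2] at h1
      simp only [eval_add, eval_mul, eval_comp, eval_sub, eval_pow, eval_X, eval_C, eval_neg]
      have h3 : (-y + 2) ^ (2 * q + 1) = -(y - 2) ^ (2 * q + 1) := by
        rw [show -y + 2 = -(y - 2) by ring, Odd.neg_pow ⟨q, rfl⟩]
      rw [h3] at h1
      have h4 : (-y) ^ 3 - 3 * -y = -(y ^ 3 - 3 * y) := by ring
      rw [h4] at h1
      linear_combination -h1
  obtain ⟨e1, e2⟩ := F_unique q hIs
  have hsq : ((-1 : ℂ) ^ q) * (-1) ^ q = 1 := by rw [← mul_pow]; norm_num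
  constructor
  · have h1 := congrArg (fun p => p.comp (-X)) e1
    simp only [comp_neg_X_comp_neg_X, mul_comp, C_comp] at h1
    rw [h1]
    unfold FPt
    rw [C_mul, C_neg]
    ring
  · have h1 := congrArg (fun p => p.comp (-X)) e2
    simp only [neg_comp, comp_neg_X_comp_neg_X, mul_comp, C_comp] at h1
    have h2 : BP (2 * q + 1) s = -(C (-(-1) ^ q * Chi (2 * q + 1) s) * (FQ q).comp (-X)) := by
      rw [← h1, neg_neg]
    rw [h2]
    unfold FQt
    rw [C_mul, C_neg]
    ring

/-- lower leg: `2c+1` strands `2` and `2q+2` strands `1` -/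
theorem mx_AB_S (c : ℕ) : ∀ (q : ℕ) {s : ℕ → ℂ},
    (Multiset.range (2 * (c + q) + 1)).map s = Multiset.replicate (2 * c + 1) 2 + Multiset.replicate (2 * q) 1 →
    AP (2 * (c + q) + 1) s = C (Chi (2 * (c + q) + 1) s) * (X + C 2) ^ q * FP c ∧
      BP (2 * (c + q) + 1) s = C (Chi (2 * (c + q) + 1) s) * (X + C 2) ^ q * FQ c := by
  intro q
  induction q with
  | zero =>
    intro s hs
    rw [Nat.mul_zero, Multiset.replicate_zero, add_zero, add_zero] at hs
    rw [add_zero, pow_zero, mul_one]
    apply mx_AB_A
    intro i hi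
    have h1 : s i ∈ (Multiset.range (2 * c + 1)).map s := Multiset.mem_map_of_mem s (Multiset.mem_range.2 hi)
    rw [hs] at h1
    exact Multiset.eq_of_mem_replicate h1
  | succ q ih =>
    intro s hs
    set t : ℕ → ℂ := fun i => if i < 2 * c + 1 then 2 else 1 with ht
    have htm : (Multiset.range (2 * (c + q) + 1)).map t = Multiset.replicate (2 * c + 1) 2 + Multiset.replicate (2 * q) 1 := by
      rw [show 2 * (c + q) + 1 = 2 * c + 1 + 2 * q by ring]
      generalize 2 * q = n
      induction n with
      | zero =>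
        rw [Multiset.replicate_zero, add_zero, add_zero, Multiset.eq_replicate]
        refine ⟨by rw [Multiset.card_map, Multiset.card_range], fun x hx => ?_⟩
        obtain ⟨i, hi, rfl⟩ := Multiset.mem_map.1 hx
        rw [Multiset.mem_range] at hi
        rw [ht]
        simp only [if_pos hi]
      | succ n ih =>
        rw [← add_assoc, Multiset.range_succ, Multiset.map_cons, ih, Multiset.replicate_succ 1 n, Multiset.add_cons]
        congr 1
        rw [ht]
        simp only [if_neg (show ¬ 2 * c + 1 + n < 2 * c + 1 by omega)]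
    have hst : (Multiset.range (2 * (c + q) + 1 + 2)).map s = (Multiset.range (2 * (c + q) + 1 + 2)).map (mx_two 1 1 t) := by
      rw [mx_two_map, htm, show 2 * (c + q) + 1 + 2 = 2 * (c + (q + 1)) + 1 by ring, hs,
        show 2 * (q + 1) = 2 * q + 1 + 1 by ring, Multiset.replicate_succ 1 (2 * q + 1), Multiset.replicate_succ 1 (2 * q),
        Multiset.add_cons, Multiset.add_cons]
    rw [show 2 * (c + (q + 1)) + 1 = 2 * (c + q) + 1 + 2 by ring, mx_Chi hst, (mx_AB hst).1, (mx_AB hst).2,
      mx_two_Chi mx_qq1]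
    have hw : ∀ y : ℂ, (y + 1 + 1) * ((y - 1) * (y - 1)) = cc y - (-2) := by
      intro y
      unfold cc
      ring
    obtain ⟨e1, e2⟩ := mx_two_AB mx_qq1 hw t (2 * (c + q) + 1)
    obtain ⟨e3, e4⟩ := ih htm
    rw [e1, e2, e3, e4, C_mul, C_neg, pow_succ]
    constructor <;> ring

/-- right leg: `2p` strands `-1` and `2q+1` strands `-2` -/
theorem mx_AB_B (q : ℕ) : ∀ (p : ℕ) {s : ℕ → ℂ},
    (Multiset.range (2 * (p + q) + 1)).map s = Multiset.replicate (2 * p) (-1) + Multiset.replicate (2 * q + 1) (-2) →
    AP (2 * (p + q) + 1) s = C (Chi (2 * (p + q) + 1) s) * (X - C 2) ^ p * FPt q ∧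
      BP (2 * (p + q) + 1) s = C (Chi (2 * (p + q) + 1) s) * (X - C 2) ^ p * FQt q := by
  intro p
  induction p with
  | zero =>
    intro s hs
    rw [Nat.mul_zero, Multiset.replicate_zero, zero_add, zero_add] at hs
    rw [zero_add, pow_zero, mul_one]
    apply mx_AB_neg
    intro i hi
    have h1 : s i ∈ (Multiset.range (2 * q + 1)).map s := Multiset.mem_map_of_mem s (Multiset.mem_range.2 hi)
    rw [hs] at h1
    exact Multiset.eq_of_mem_replicate h1
  | succ p ih =>
    intro s hs
    set t : ℕ → ℂ := fun i => if i < 2 * q + 1 then -2 else -1 with ht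
    have htm : (Multiset.range (2 * (p + q) + 1)).map t = Multiset.replicate (2 * p) (-1) + Multiset.replicate (2 * q + 1) (-2) := by
      rw [show 2 * (p + q) + 1 = 2 * q + 1 + 2 * p by ring]
      generalize 2 * p = n
      induction n with
      | zero =>
        rw [Multiset.replicate_zero, add_zero, zero_add, Multiset.eq_replicate]
        refine ⟨by rw [Multiset.card_map, Multiset.card_range], fun x hx => ?_⟩
        obtain ⟨i, hi, rfl⟩ := Multiset.mem_map.1 hx
        rw [Multiset.mem_range] at hi
        rw [ht]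
        simp only [if_pos hi]
      | succ n ih =>
        rw [← add_assoc, Multiset.range_succ, Multiset.map_cons, ih, Multiset.replicate_succ (-1) n, Multiset.cons_add]
        congr 1
        rw [ht]
        simp only [if_neg (show ¬ 2 * q + 1 + n < 2 * q + 1 by omega)]
    have hst : (Multiset.range (2 * (p + q) + 1 + 2)).map s =
        (Multiset.range (2 * (p + q) + 1 + 2)).map (mx_two (-1) (-1) t) := by
      rw [mx_two_map, htm, show 2 * (p + q) + 1 + 2 = 2 * (p + 1 + q) + 1 by ring, hs,
        show 2 * (p + 1) = 2 * p + 1 + 1 by ring, Multiset.replicate_succ (-1) (2 * p + 1), Multiset.replicate_succ (-1) (2 * p),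
        Multiset.cons_add, Multiset.cons_add]
    rw [show 2 * (p + 1 + q) + 1 = 2 * (p + q) + 1 + 2 by ring, mx_Chi hst, (mx_AB hst).1, (mx_AB hst).2,
      mx_two_Chi mx_qq1']
    have hw : ∀ y : ℂ, (y + -1 + -1) * ((y - -1) * (y - -1)) = cc y - 2 := by
      intro y
      unfold cc
      ring
    obtain ⟨e1, e2⟩ := mx_two_AB mx_qq1' hw t (2 * (p + q) + 1)
    obtain ⟨e3, e4⟩ := ih htm
    rw [e1, e2, e3, e4, C_mul, pow_succ]
    constructor <;> ring
end IP.Junc
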